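import Pool.Agent.Run7.h311.LM.Final

set_option autoImplicit false

/-!
# The moments over almost all windows of the critical line, for the exponents below two

For `0 < β < 2`, `h > 0` and `ε > 0` there are constants `0 < c`, `C` such that, for all large `T`, all starting
points `u T`, `u ∈ [0, 1]`, outside a set of measure at most `ε` have the following property: for every length
`H` between `h` and `T`, the mean value of `|zeta| ^ β` over the window of length `H` of the critical line which
starts at the height `u T` is between `c (log T) ^ (β² / 4)` and `C (log T) ^ (β² / 4)`.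

The upper bound follows from the moment bound on the critical line and a maximal inequality. The lower bound comes
from the comparison with the random Euler product near the critical line (the library GC), from the zero-one law,
which shows that the limiting masses are positive, and from the subharmonicity of `|zeta| ^ β`.
-/

namespace Pool.Agent.Results.MP_f9aece_nt.AlmostAllWindows

open Filter MeasureTheory Topology

/-- the mean value of `|μ_T (x)| ^ β`, at the point `u` of the probability space, over `0 ≤ x ≤ H` -/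
noncomputable def localMean (β T H u : ℝ) : ℝ :=
  (1 / H) * ∫ x in (0:ℝ)..H, ‖riemannZeta (1 / 2 + Complex.I * x + Complex.I * u * T)‖ ^ β

/-- the size `(log T) ^ (β² / 4)` of the problem -/
noncomputable def size (β T : ℝ) : ℝ := Real.exp (1 / 4 * β ^ 2 * Real.log (Real.log T))

theorem size_eq {β T : ℝ} (hT : 1 < T) : size β T = Real.log T ^ ((β / 2) ^ 2) := by
  unfold size
  rw [Real.rpow_def_of_pos (Real.log_pos hT)]
  congr 1
  ring

theorem mean_eq (β T H u : ℝ) :
    localMean β T H u = (1 / H) * ∫ s in (u * T)..(u * T + H), Run7.h311.LM.Up.G (2 * (β / 2)) s := by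
  unfold localMean
  congr 1
  have h := intervalIntegral.integral_comp_add_left (a := 0) (b := H)
    (fun s => Run7.h311.LM.Up.G (2 * (β / 2)) s) (u * T)
  rw [add_zero] at h
  rw [← h]
  refine intervalIntegral.integral_congr fun x _ => ?_
  simp only [Run7.h311.LM.Up.G]
  have e1 : (1 / 2 + Complex.I * x + Complex.I * u * T : ℂ) = 1 / 2 + ((u * T + x : ℝ) : ℂ) * Complex.I := by
    push_cast; ring
  have e2 : 2 * (β / 2) = β := by ring
  rw [e1, e2]

theorem result (β h ε : ℝ) (hβ : 0 < β) (hβ2 : β < 2) (hh : 0 < h) (hε : 0 < ε) :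
    ∃ c C : ℝ, 0 < c ∧ 0 < C ∧ ∀ᶠ T : ℝ in atTop,
      volume.real {u : ℝ | u ∈ Set.Icc (0:ℝ) 1 ∧ ∃ H : ℝ, h ≤ H ∧ H ≤ T ∧
        (localMean β T H u < c * size β T ∨ C * size β T < localMean β T H u)} ≤ ε := by
  have ha : 0 < β / 2 := by linarith
  have ha1 : β / 2 < 1 := by linarith
  obtain ⟨c, hc, h1⟩ := Run7.h311.LM.Final.low_all ha ha1 hh (ε := ε / 2) (by linarith)
  obtain ⟨C, hC, h2⟩ := Run7.h311.LM.Final.up_all ha (by linarith) hh (ε := ε / 2) (by linarith)
  refine ⟨c, C, hc, hC, ?_⟩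
  filter_upwards [h1, h2, eventually_gt_atTop 1] with T g1 g2 g3
  have hT0 : 0 < T := by linarith
  set A : Set ℝ := {t | t ∈ Set.Icc 0 T ∧ ∃ H, h ≤ H ∧ H ≤ T ∧
    ∫ s in t..(t + H), Run7.h311.LM.Up.G (2 * (β / 2)) s < c * Real.log T ^ ((β / 2) ^ 2) * H} with hA
  set B : Set ℝ := {t | t ∈ Set.Icc 0 T ∧ ∃ H, h ≤ H ∧ H ≤ T ∧
    C * Real.log T ^ ((β / 2) ^ 2) * H < ∫ s in t..(t + H), Run7.h311.LM.Up.G (2 * (β / 2)) s} with hB
  have hsub : {u : ℝ | u ∈ Set.Icc (0:ℝ) 1 ∧ ∃ H : ℝ, h ≤ H ∧ H ≤ T ∧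
      (localMean β T H u < c * size β T ∨ C * size β T < localMean β T H u)} ⊆
      (fun u => u * T) ⁻¹' (A ∪ B) := by
    rintro u ⟨hu, H, hH1, hH2, hH3⟩
    have hH0 : 0 < H := by linarith
    have hu' : u * T ∈ Set.Icc 0 T := ⟨mul_nonneg hu.1 hT0.le, by nlinarith [hu.2]⟩
    rw [mean_eq, size_eq g3, one_div, inv_mul_eq_div, div_lt_iff₀ hH0, lt_div_iff₀ hH0] at hH3
    rcases hH3 with h3 | h3
    · exact Or.inl ⟨hu', H, hH1, hH2, h3⟩
    · exact Or.inr ⟨hu', H, hH1, hH2, h3⟩
  have hfin : volume (A ∪ B) ≠ ⊤ :=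
    Run7.h311.LM.Final.fin_sub (Set.union_subset (fun t ht => ht.1) (fun t ht => ht.1))
  have hpre : volume.real ((fun u => u * T) ⁻¹' (A ∪ B)) = T⁻¹ * volume.real (A ∪ B) := by
    unfold Measure.real
    rw [Real.volume_preimage_mul_right hT0.ne', ENNReal.toReal_mul, ENNReal.toReal_ofReal (abs_nonneg _),
      abs_of_pos (inv_pos.2 hT0)]
  have hpre2 : volume ((fun u => u * T) ⁻¹' (A ∪ B)) ≠ ⊤ := by
    rw [Real.volume_preimage_mul_right hT0.ne']
    exact ENNReal.mul_ne_top ENNReal.ofReal_ne_top hfin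
  calc _ ≤ volume.real ((fun u => u * T) ⁻¹' (A ∪ B)) := measureReal_mono hsub hpre2
    _ = T⁻¹ * volume.real (A ∪ B) := hpre
    _ ≤ T⁻¹ * (ε / 2 * T + ε / 2 * T) := by
        refine mul_le_mul_of_nonneg_left ?_ (by positivity)
        exact (measureReal_union_le _ _).trans (add_le_add g1 g2)
    _ = ε := by field_simp; ring

end Pool.Agent.Results.MP_f9aece_nt.AlmostAllWindows
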