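import Pool.Agent.Run7.h402.FR.Asm

set_option autoImplicit false

/-!
# MP_f9aece_nt: freezing of the moments of zeta along sequences

For a sequence `u` with `u n = n ^ (γ + o(1))` and gaps at least `n ^ (-C)` (for instance `u n = n ^ γ`) and a real
`α > 0` we consider the power sums over the points `t_n = exp (α * u n)`,
`S u β α N = ∑_{n ≤ N} |ζ(1/2 + i t_n)| ^ β`.
Since `log t_N = N ^ (γ + o(1))`, the prediction `(log T) ^ (β ^ 2 / 4)` for the moments suggests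
`S u β α N = N ^ (1 + γ * β ^ 2 / 4 + o(1))`. This is true for `β ≤ 2 / √γ`, and false for larger `β`, where
`S u β α N = N ^ (√γ * β + o(1))`: the power sum is then dominated by its largest terms.
-/

namespace Pool.Agent.Results.MP_f9aece_nt.FreezingAlongSequences

open MeasureTheory Filter Topology

noncomputable section

/-- sequences of size `n ^ (γ + o(1))`, whose `n`-th term is at distance at least `n ^ (-C)` from the earlier ones -/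
def Admissible (γ : ℝ) (u : ℕ → ℝ) : Prop :=
  (∀ᶠ n : ℕ in atTop, 0 < u n) ∧
  Tendsto (fun n : ℕ => Real.log (u n) / Real.log n) atTop (𝓝 γ) ∧
  ∃ C : ℝ, ∀ᶠ n : ℕ in atTop, ∀ m : ℕ, m < n → (n : ℝ) ^ (-C) ≤ |u n - u m|

/-- `|ζ(1/2 + i exp (α * u n))|` -/
def Z (u : ℕ → ℝ) (α : ℝ) (n : ℕ) : ℝ := ‖riemannZeta (1 / 2 + (Real.exp (α * u n) : ℝ) * Complex.I)‖

/-- the power sum of exponent `β` over `n ≤ N` -/
def S (u : ℕ → ℝ) (β α : ℝ) (N : ℕ) : ℝ := ∑ n ∈ Finset.Icc 1 N, Z u α n ^ β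

/-- the number of `n ≤ N` with `Z u α n ≥ N ^ s` -/
def count (u : ℕ → ℝ) (s α : ℝ) (N : ℕ) : ℕ := {n : ℕ | n ∈ Finset.Icc 1 N ∧ (N : ℝ) ^ s ≤ Z u α n}.ncard

/-- the exponent: quadratic up to `β = 2 / √γ`, linear beyond -/
def F (γ β : ℝ) : ℝ := if β ≤ 2 / Real.sqrt γ then 1 + γ * β ^ 2 / 4 else Real.sqrt γ * β

lemma adm_iff : Admissible = Run7.h402.FR.Adm := rfl

lemma Z_eq : Z = Run7.h402.FR.ztv := rfl

lemma S_eq : S = Run7.h402.FR.SS' := rfl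

lemma count_eq : count = Run7.h402.FR.Bn := rfl

lemma F_eq : F = Run7.h402.FR.FE := rfl

lemma to_Icc {A : ℕ → Set ℝ} {a b : ℝ}
    (h : Tendsto (fun N => volume (Set.Ico a (max a b + 1) ∩ A N)) atTop (𝓝 0)) :
    Tendsto (fun N => volume {α : ℝ | α ∈ Set.Icc a b ∧ α ∈ A N}) atTop (𝓝 0) := by
  refine tendsto_of_tendsto_of_tendsto_of_le_of_le tendsto_const_nhds h (fun _ => zero_le) fun N => ?_
  refine measure_mono ?_
  rintro α ⟨h1, h2⟩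
  have h3 := le_max_right a b
  exact ⟨⟨h1.1, by linarith [h1.2]⟩, h2⟩

/-- **Freezing of the moments of zeta along sequences.** Let `u` be an admissible sequence with exponent `γ > 0`.

In measure, on every compact interval of numbers `α > 0`:
(1), (2) `S u β α N = N ^ (F γ β + o(1))`; the lower bound for all `β > 0`, the upper bound if `β ≤ 4` or `γ ≥ 1/4`;
(3), (4) the number of `n ≤ N` with `|ζ(1/2 + i t_n)| ≥ N ^ (γ * κ)` is `N ^ (1 - γ * κ ^ 2 + o(1))`;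
(5), (6) the maximum over `n ≤ N` is `N ^ (√γ + o(1))`; the upper bound if `γ ≥ 1/4`.

For almost every `α > 0`, for all `β` at the same time: the upper bounds hold for all large `N`, and the lower bounds
for arbitrarily large `N`. -/
theorem result :
    (∀ γ : ℝ, 0 < γ → Admissible γ (fun n : ℕ => (n : ℝ) ^ γ)) ∧
    ∀ (γ : ℝ) (u : ℕ → ℝ), 0 < γ → Admissible γ u →
      (∀ a b ε : ℝ, 0 < a → 0 < ε →
        (∀ β : ℝ, 0 < β →
          Tendsto (fun N : ℕ => volume {α : ℝ | α ∈ Set.Icc a b ∧ S u β α N < (N : ℝ) ^ (F γ β - ε)}) atTop (𝓝 0)) ∧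
        (∀ β : ℝ, 0 < β → (β ≤ 4 ∨ 1 / 4 ≤ γ) →
          Tendsto (fun N : ℕ => volume {α : ℝ | α ∈ Set.Icc a b ∧ (N : ℝ) ^ (F γ β + ε) < S u β α N}) atTop (𝓝 0)) ∧
        (∀ κ : ℝ, 0 < κ → γ * κ ^ 2 < 1 →
          Tendsto (fun N : ℕ => volume {α : ℝ | α ∈ Set.Icc a b ∧
            (count u (γ * κ) α N : ℝ) < (N : ℝ) ^ (1 - γ * κ ^ 2 - ε)}) atTop (𝓝 0)) ∧
        (∀ κ : ℝ, 0 < κ → κ ≤ 2 →
          Tendsto (fun N : ℕ => volume {α : ℝ | α ∈ Set.Icc a b ∧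
            (N : ℝ) ^ (1 - γ * κ ^ 2 + ε) < (count u (γ * κ) α N : ℝ)}) atTop (𝓝 0)) ∧
        Tendsto (fun N : ℕ => volume {α : ℝ | α ∈ Set.Icc a b ∧
            ∀ n ∈ Finset.Icc 1 N, Z u α n < (N : ℝ) ^ (Real.sqrt γ - ε)}) atTop (𝓝 0) ∧
        (1 / 4 ≤ γ →
          Tendsto (fun N : ℕ => volume {α : ℝ | α ∈ Set.Icc a b ∧
            ∃ n ∈ Finset.Icc 1 N, (N : ℝ) ^ (Real.sqrt γ + ε) < Z u α n}) atTop (𝓝 0))) ∧
      (∀ᵐ α : ℝ, 0 < α →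
        (∀ β ε : ℝ, 0 < β → 0 < ε → ∃ᶠ N : ℕ in atTop, (N : ℝ) ^ (F γ β - ε) ≤ S u β α N) ∧
        (∀ β ε : ℝ, 0 < β → (β ≤ 4 ∨ 1 / 4 ≤ γ) → 0 < ε → ∀ᶠ N : ℕ in atTop, S u β α N ≤ (N : ℝ) ^ (F γ β + ε)) ∧
        (∀ ε : ℝ, 0 < ε → ∃ᶠ n : ℕ in atTop, (n : ℝ) ^ (Real.sqrt γ - ε) ≤ Z u α n) ∧
        (1 / 4 ≤ γ → ∀ ε : ℝ, 0 < ε → ∀ᶠ n : ℕ in atTop, Z u α n ≤ (n : ℝ) ^ (Real.sqrt γ + ε))) := by
  rw [adm_iff, Z_eq, S_eq, count_eq, F_eq]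
  refine ⟨fun γ hγ => Run7.h402.FR.adm_pow hγ, fun γ u hγ hu => ⟨fun a b ε ha hε => ?_, ?_⟩⟩
  · have hab : a < max a b + 1 := by
      have := le_max_left a b
      linarith
    refine ⟨fun β hβ => ?_, fun β hβ hβ4 => ?_, fun κ hκ hκ1 => ?_, fun κ hκ hκ2 => ?_, ?_, fun hγ4 => ?_⟩
    · exact to_Icc (Run7.h402.FR.toTend fun ν hν => Run7.h402.FR.lowS Run7.h402.FR.a_MVB Run7.h402.FR.a_VM1
        Run7.h402.FR.a_VMT Pool.Agent.Y363.LD.t_PW Run7.h402.FR.a_LOW γ a (max a b + 1) β ε ν u hu hγ ha hab hβ hε hν)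
    · exact to_Icc (Run7.h402.FR.upS Run7.h402.FR.a_STRIP γ a (max a b + 1) β ε u hu hγ ha hab hβ hβ4 hε)
    · exact to_Icc (Run7.h402.FR.toTend fun ν hν => Run7.h402.FR.lowB Run7.h402.FR.a_MVB Run7.h402.FR.a_VM1
        Run7.h402.FR.a_VMT Pool.Agent.Y363.LD.t_PW Run7.h402.FR.a_LOW γ a (max a b + 1) κ ε ν u hu hγ ha hab hκ hκ1 hε hν)
    · exact to_Icc (Run7.h402.FR.upB Run7.h402.FR.a_STRIP γ a (max a b + 1) κ ε u hu hγ ha hab hκ hκ2 hε)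
    · exact to_Icc (Run7.h402.FR.toTend fun ν hν => Run7.h402.FR.lowM Run7.h402.FR.a_MVB Run7.h402.FR.a_VM1
        Run7.h402.FR.a_VMT Pool.Agent.Y363.LD.t_PW Run7.h402.FR.a_LOW γ a (max a b + 1) ε ν u hu hγ ha hab hε hν)
    · exact to_Icc (Run7.h402.FR.upM Run7.h402.FR.a_STRIP γ a (max a b + 1) ε u hu hγ4 ha hab hε)
  · filter_upwards [Run7.h402.FR.up_ae_FE Run7.h402.FR.a_STRIP γ u hu hγ,
      Run7.h402.FR.low_ae Run7.h402.FR.a_MVB Run7.h402.FR.a_VM1 Run7.h402.FR.a_VMT Pool.Agent.Y363.LD.t_PW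
        Run7.h402.FR.a_LOW γ u hu hγ] with α h1 h2 hα
    exact ⟨(h2 hα).1, (h1 hα).1, (h2 hα).2, (h1 hα).2⟩

end

end Pool.Agent.Results.MP_f9aece_nt.FreezingAlongSequences
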