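import Pool.Agent.R313.CX.X
import Pool.Agent.Run7.h145.JN.C

set_option autoImplicit false

/-!
# MP_f9aece_nt: the joint law of zeta and its derivatives under the moment measures near the critical line

Let `δ(T) → 0` with `δ(T) log T → ∞`, let `0 < k ≤ 2` be real, and write `s = 1/2 + δ + it`. Then, unconditionally:

* for every continuous `Φ` on `ℂ^(n+1)` with `Φ(u z) = |u|^(2k) Φ(z)`,
  `(2δ)^(k²) (1/T) ∫_0^T Φ(ζ(s), 2δ ζ'(s), ..., (2δ)^n ζ^(n)(s)) dt → a(k) E Φ(J)`, where `J` is the vector of the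
  derivatives at `x = 0` of the random function `exp (- k log (1 + x) + ∑_{m ≥ 1} (x / (1 + x))^m g_m / √m)`
  (`w = 1 + 2x` below);
* under the measure `|ζ(s)|^(2k) dt` the function `2δ ζ'(s)/ζ(s)` is in the limit a complex normal variable with mean
  `- k`: this holds for all continuous test functions `F(z) = o(|z|^(2k))`;
* for all real `0 ≤ h ≤ k`,
  `(1/T) ∫_0^T |ζ(s)|^(2k-2h) |ζ'(s)|^(2h) dt ~ a(k) c(k, h) (2δ)^(-k²-2h)`, with
  `c(k, h) = e^(-k²) ∑_m k^(2m) Γ(h + m + 1) / (m!)²`; in particular (`h = k`) the moments of `ζ'` of every real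
  order `2k ≤ 4`.
-/

open Filter Topology MeasureTheory ProbabilityTheory

namespace Pool.Agent.Results.MP_f9aece_nt.JetsNearLine

/-- the arithmetic factor of the moment conjecture for `|ζ|^(2k)` -/
noncomputable def ak (k : ℝ) : ℝ :=
  ∏' p : Nat.Primes, ((1 - 1 / (p : ℝ)) ^ (k ^ 2) *
    ∑' m : ℕ, (Real.Gamma (k + m) / (Real.Gamma k * (m.factorial : ℝ))) ^ 2 / (p : ℝ) ^ m)

/-- the law of a pair of independent standard real normal variables -/
noncomputable def pairLaw : Measure (ℝ × ℝ) := (gaussianReal 0 1).prod (gaussianReal 0 1)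

/-- the law of a sequence of independent such pairs -/
noncomputable def seqLaw : Measure (ℕ → ℝ × ℝ) := Measure.infinitePi fun _ : ℕ => pairLaw

/-- a standard complex normal variable, as a function of two independent standard real normal variables -/
noncomputable def gau (x : ℝ × ℝ) : ℂ := ((x.1 : ℂ) + Complex.I * (x.2 : ℂ)) / (Real.sqrt 2 : ℂ)

/-- the random analytic function on the half plane `Re w > 0` -/
noncomputable def field (k : ℝ) (ω : ℕ → ℝ × ℝ) (w : ℂ) : ℂ :=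
  -(k * Complex.log ((1 + w) / 2)) + ∑' m : ℕ, ((w - 1) / (w + 1)) ^ (m + 1) * gau (ω m) / (Real.sqrt ((m : ℝ) + 1) : ℂ)

/-- the derivatives of orders `0, ..., n` of `exp (field)` at the point `w = 1`, with respect to `x = (w - 1) / 2` -/
noncomputable def jet (k : ℝ) (n : ℕ) (ω : ℕ → ℝ × ℝ) : Fin (n + 1) → ℂ :=
  fun j => 2 ^ (j : ℕ) * iteratedDeriv j (fun w => Complex.exp (field k ω w)) 1

/-- `ζ(s), 2δ ζ'(s), ..., (2δ)^n ζ^(n)(s)` at `s = 1/2 + δ + it` -/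
noncomputable def zetaJet (δ : ℝ) (n : ℕ) (t : ℝ) : Fin (n + 1) → ℂ :=
  fun j => (2 * δ) ^ (j : ℕ) * iteratedDeriv j riemannZeta (1 / 2 + δ + t * Complex.I)

/-- `c(k, h) = e^(-k²) ∑_m k^(2m) Γ(h + m + 1) / (m!)²` -/
noncomputable def c (k h : ℝ) : ℝ := Real.exp (-k ^ 2) * ∑' m : ℕ, (k ^ 2) ^ m * Real.Gamma (h + m + 1) / (m.factorial : ℝ) ^ 2

lemma lc_eq {k : ℝ} (hk : 0 < k) (m : ℕ) :
    Real.Gamma (k + m) / (Real.Gamma k * (m.factorial : ℝ)) = Pool.Agent.H306R2.lc k m := by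
  have hG : Real.Gamma k ≠ 0 := (Real.Gamma_pos_of_pos hk).ne'
  induction m with
  | zero =>
    unfold Pool.Agent.H306R2.lc
    simp [hG]
  | succ m ih =>
    have h1 : Pool.Agent.H306R2.lc k (m + 1) = Pool.Agent.H306R2.lc k m * ((k + m) / ((m : ℝ) + 1)) := by
      unfold Pool.Agent.H306R2.lc
      rw [Finset.prod_range_succ]
    have hkm : k + (m : ℝ) ≠ 0 := by positivity
    have h2 : Real.Gamma (k + ((m + 1 : ℕ) : ℝ)) = (k + m) * Real.Gamma (k + m) := by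
      rw [← Real.Gamma_add_one hkm]
      congr 1
      push_cast
      ring
    have hf : (m.factorial : ℝ) ≠ 0 := by positivity
    rw [h1, ← ih, h2, Nat.factorial_succ]
    push_cast
    field_simp

lemma ak_eq {k : ℝ} (hk : 0 < k) : ak k = Pool.Agent.H306R2.aF k := by
  unfold ak Pool.Agent.H306R2.aF
  refine tprod_congr fun p => ?_
  simp_rw [lc_eq hk, one_div, inv_pow, div_eq_mul_inv]

open Pool.Agent.R313.CX in
/-- the limit theorem for the vector of the derivatives -/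
theorem jets {δ : ℝ → ℝ} (hδ : Tendsto δ atTop (𝓝 0)) (hδL : Tendsto (fun T : ℝ => δ T * Real.log T) atTop atTop)
    {k : ℝ} (hk : 0 < k) (hk2 : k ≤ 2) (n : ℕ) (Φ : (Fin (n + 1) → ℂ) → ℂ) (hΦc : Continuous Φ)
    (hΦ : ∀ (u : ℂ) (z : Fin (n + 1) → ℂ), Φ (u • z) = ((‖u‖ ^ (2 * k) : ℝ) : ℂ) * Φ z) :
    Integrable (fun ω => Φ (jet k n ω)) seqLaw ∧
    Tendsto (fun T : ℝ => (((2 * δ T) ^ (k ^ 2) / T : ℝ) : ℂ) * ∫ t in Set.Icc 0 T, Φ (zetaJet (δ T) n t)) atTop
      (𝓝 ((ak k : ℂ) * ∫ ω, Φ (jet k n ω) ∂seqLaw)) := by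
  obtain ⟨-, h1⟩ := comp_lim hδ hδL hk hk2 Pool.Agent.Run7.h145.JN.K_compact Pool.Agent.Run7.h145.JN.K_re
  obtain ⟨h2, h3⟩ := h1 (fun f => Φ (fun j : Fin (n + 1) => Pool.Agent.Run7.h145.JN.jl j f))
    (hΦc.comp (continuous_pi fun j => (Pool.Agent.Run7.h145.JN.jl j).continuous)) (by
      intro u f
      rw [← hΦ]
      congr 1
      funext j
      rw [map_smul]
      rfl)
  have e1 : (fun ω => Φ (fun j : Fin (n + 1) => Pool.Agent.Run7.h145.JN.jl j (rs Pool.Agent.Run7.h145.JN.K (fun w => Complex.exp (fld k ω w))))) =ᵐ[seqLaw]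
      fun ω => Φ (jet k n ω) := by
    filter_upwards [fld_good k] with ω hω
    congr 1
    funext j
    have hd : DifferentiableOn ℂ (fun w => Complex.exp (fld k ω w)) Pool.Agent.Run7.h145.JN.K := fun w hw =>
      ((hω w (Pool.Agent.Run7.h145.JN.K_re w hw)).2.cexp).differentiableWithinAt
    rw [Pool.Agent.Run7.h145.JN.jl_eq j _ (fun w => Complex.exp (fld k ω w)) (fun w => rs_apply hd.continuousOn w) hd]
    rfl
  refine ⟨h2.congr e1, ?_⟩
  have e2 : ∫ ω, Φ (fun j : Fin (n + 1) => Pool.Agent.Run7.h145.JN.jl j (rs Pool.Agent.Run7.h145.JN.K (fun w => Complex.exp (fld k ω w)))) ∂gp =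
      ∫ ω, Φ (jet k n ω) ∂seqLaw := integral_congr_ae e1
  rw [e2, ← ak_eq hk] at h3
  refine h3.congr' ?_
  have hpos : ∀ᶠ T in atTop, 0 < δ T := by
    filter_upwards [hδL.eventually_gt_atTop 0, eventually_gt_atTop 1] with T hT hT1
    exact (pos_iff_pos_of_mul_pos hT).mpr (Real.log_pos hT1)
  filter_upwards [hpos, hδ.eventually (gt_mem_nhds (by norm_num : (0:ℝ) < 1 / 3))] with T hT1 hT2
  congr 1
  refine integral_congr_ae (Eventually.of_forall fun t => ?_)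
  show Φ _ = Φ _
  congr 1
  funext j
  have hd : DifferentiableOn ℂ (Pool.Agent.R313.FN.gz (δ T) t) Pool.Agent.Run7.h145.JN.K := by
    intro w hw
    have hw1 : ‖w - 1‖ ≤ 1 / 2 := by rw [← dist_eq_norm]; exact hw
    have hw2 := (Complex.abs_re_le_norm (w - 1)).trans hw1
    rw [Complex.sub_re, Complex.one_re, abs_le] at hw2
    have hne : (1 / 2 + t * Complex.I + δ T * w : ℂ) ≠ 1 := by
      intro h
      have h5 := congrArg Complex.re h
      simp at h5
      nlinarith [hw2.2]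
    refine DifferentiableAt.differentiableWithinAt ?_
    show DifferentiableAt ℂ (fun w => riemannZeta (1 / 2 + t * Complex.I + δ T * w)) w
    exact DifferentiableAt.comp (g := riemannZeta) (f := fun w : ℂ => (1 / 2 + t * Complex.I + δ T * w : ℂ)) w (differentiableAt_riemannZeta hne) (by fun_prop)
  rw [Pool.Agent.Run7.h145.JN.jl_eq j _ (Pool.Agent.R313.FN.gz (δ T) t) (fun w => rs_apply hd.continuousOn w) hd]
  have e3 : Pool.Agent.R313.FN.gz (δ T) t = fun w => riemannZeta ((1 / 2 + t * Complex.I) + (δ T : ℂ) * w) := rfl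
  rw [e3, Pool.Agent.Run7.h145.JN.itd_lin]
  unfold zetaJet
  have e4 : (1 / 2 + (t:ℂ) * Complex.I) + (δ T : ℂ) * 1 = 1 / 2 + δ T + t * Complex.I := by ring
  show 2 ^ (j:ℕ) * ((δ T : ℂ) ^ (j:ℕ) * iteratedDeriv j riemannZeta ((1 / 2 + (t:ℂ) * Complex.I) + (δ T : ℂ) * 1)) = _
  rw [e4, mul_pow]
  ring

/-- the value and the derivative of the random function -/
lemma jet_one (k : ℝ) : ∀ᵐ ω ∂seqLaw, jet k 1 ω = ![1, gau (ω 0) - k] := by
  filter_upwards [(Pool.Agent.R313.CX.St_exp (q := 1 / 2) (s := 1) (by norm_num) (by norm_num) one_pos).1] with ω hω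
  have h1 : HasDerivAt (field k ω) ((gau (ω 0) - k) / 2) 1 := Pool.Agent.Run7.h145.JN.field_deriv k ω hω
  have h0 : field k ω 1 = 0 := Pool.Agent.Run7.h145.JN.field_one k ω
  funext j
  fin_cases j
  · show 2 ^ 0 * iteratedDeriv 0 (fun w => Complex.exp (field k ω w)) 1 = 1
    rw [iteratedDeriv_zero, h0]
    simp
  · show 2 ^ 1 * iteratedDeriv 1 (fun w => Complex.exp (field k ω w)) 1 = gau (ω 0) - k
    rw [iteratedDeriv_one, h1.cexp.deriv, h0]
    simp
    ring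

lemma eval_int {G : ℝ × ℝ → ℂ} (hG : Continuous G) : (Integrable (fun ω : ℕ → ℝ × ℝ => G (ω 0)) seqLaw ↔ Integrable G pairLaw) ∧
    ∫ ω, G (ω 0) ∂seqLaw = ∫ x, G x ∂pairLaw := by
  have : IsProbabilityMeasure pairLaw := by unfold pairLaw; infer_instance
  have h1 : seqLaw.map (fun ω : ℕ → ℝ × ℝ => ω 0) = pairLaw := Measure.infinitePi_map_eval (fun _ : ℕ => pairLaw) 0
  have h2 : AEMeasurable (fun ω : ℕ → ℝ × ℝ => ω 0) seqLaw := (measurable_pi_apply 0).aemeasurable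
  constructor
  · rw [← h1, integrable_map_measure hG.aestronglyMeasurable h2]
    rfl
  · rw [← h1, integral_map h2 hG.aestronglyMeasurable]

theorem result (δ : ℝ → ℝ) (hδ : Tendsto δ atTop (𝓝 0)) (hδL : Tendsto (fun T : ℝ => δ T * Real.log T) atTop atTop)
    (k : ℝ) (hk : 0 < k) (hk2 : k ≤ 2) :
    0 < ak k ∧
    -- the joint law of zeta and its derivatives
    (∀ (n : ℕ) (Φ : (Fin (n + 1) → ℂ) → ℂ), Continuous Φ →
      (∀ (u : ℂ) (z : Fin (n + 1) → ℂ), Φ (u • z) = ((‖u‖ ^ (2 * k) : ℝ) : ℂ) * Φ z) →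
        Integrable (fun ω => Φ (jet k n ω)) seqLaw ∧
        Tendsto (fun T : ℝ => (((2 * δ T) ^ (k ^ 2) / T : ℝ) : ℂ) * ∫ t in Set.Icc 0 T, Φ (zetaJet (δ T) n t)) atTop
          (𝓝 ((ak k : ℂ) * ∫ ω, Φ (jet k n ω) ∂seqLaw))) ∧
    -- under `|ζ|^(2k) dt` the law of `2δ ζ'/ζ` tends to the complex normal law with mean `-k`
    (∀ F : ℂ → ℂ, Continuous F → (∀ ε : ℝ, 0 < ε → ∃ R : ℝ, ∀ z : ℂ, R ≤ ‖z‖ → ‖F z‖ ≤ ε * ‖z‖ ^ (2 * k)) →
      Integrable (fun x => F (gau x - k)) pairLaw ∧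
      Tendsto (fun T : ℝ => (((2 * δ T) ^ (k ^ 2) / T : ℝ) : ℂ) *
          ∫ t in Set.Icc 0 T, ((‖riemannZeta (1 / 2 + δ T + t * Complex.I)‖ ^ (2 * k) : ℝ) : ℂ) *
            F (2 * δ T * deriv riemannZeta (1 / 2 + δ T + t * Complex.I) / riemannZeta (1 / 2 + δ T + t * Complex.I))) atTop
        (𝓝 ((ak k : ℂ) * ∫ x, F (gau x - k) ∂pairLaw))) ∧
    -- the joint moments of zeta and its derivative
    (∀ h : ℝ, 0 ≤ h → h ≤ k → 0 < c k h ∧ ∫ x, ‖gau x - k‖ ^ (2 * h) ∂pairLaw = c k h ∧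
      Tendsto (fun T : ℝ => (2 * δ T) ^ (k ^ 2 + 2 * h) / T *
          ∫ t in Set.Icc 0 T, ‖riemannZeta (1 / 2 + δ T + t * Complex.I)‖ ^ (2 * k - 2 * h) *
            ‖deriv riemannZeta (1 / 2 + δ T + t * Complex.I)‖ ^ (2 * h)) atTop (𝓝 (ak k * c k h))) ∧
    c k 1 = 1 + k ^ 2 := by
  have hak : 0 < ak k := by rw [ak_eq hk]; exact Pool.Agent.H306R2.aF_pos hk
  have hpos : ∀ᶠ T in atTop, 0 < δ T := by
    filter_upwards [hδL.eventually_gt_atTop 0, eventually_gt_atTop 1] with T hT hT1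
    exact (pos_iff_pos_of_mul_pos hT).mpr (Real.log_pos hT1)
  refine ⟨hak, fun n Φ h1 h2 => jets hδ hδL hk hk2 n Φ h1 h2, fun F hF hF2 => ?_, fun h hh hhk => ⟨?_, ?_, ?_⟩, ?_⟩
  · obtain ⟨h1, h2⟩ := jets hδ hδL hk hk2 1 (Pool.Agent.Run7.h145.JN.he k F) (Pool.Agent.Run7.h145.JN.he_cont hk hF hF2)
      (Pool.Agent.Run7.h145.JN.he_hom hk F)
    have e1 : (fun ω => Pool.Agent.Run7.h145.JN.he k F (jet k 1 ω)) =ᵐ[seqLaw] fun ω => F (gau (ω 0) - k) := by
      filter_upwards [jet_one k] with ω hω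
      rw [hω]
      unfold Pool.Agent.Run7.h145.JN.he
      simp
    have hG : Continuous fun x => F (gau x - k) := hF.comp (Pool.Agent.Run7.h145.JN.gau_cont.sub continuous_const)
    obtain ⟨h3, h4⟩ := eval_int hG
    refine ⟨h3.mp (h1.congr e1), ?_⟩
    rw [integral_congr_ae e1, h4] at h2
    refine h2.congr fun T => ?_
    congr 1
    refine integral_congr_ae (Eventually.of_forall fun t => ?_)
    show Pool.Agent.Run7.h145.JN.he k F (zetaJet (δ T) 1 t) = _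
    unfold Pool.Agent.Run7.h145.JN.he zetaJet
    simp [iteratedDeriv_one]
  · exact Pool.Agent.Run7.h145.JN.momC_pos hk hh
  · exact Pool.Agent.Run7.h145.JN.mom hh k
  · obtain ⟨-, h2⟩ := jets hδ hδL hk hk2 1 (Pool.Agent.Run7.h145.JN.pq k h) (Pool.Agent.Run7.h145.JN.pq_cont hh hhk)
      (Pool.Agent.Run7.h145.JN.pq_hom hh hhk)
    have e1 : (fun ω => Pool.Agent.Run7.h145.JN.pq k h (jet k 1 ω)) =ᵐ[seqLaw] fun ω => ((‖gau (ω 0) - k‖ ^ (2 * h) : ℝ) : ℂ) := by
      filter_upwards [jet_one k] with ω hω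
      rw [hω]
      unfold Pool.Agent.Run7.h145.JN.pq
      simp
    have hG : Continuous fun x => ((‖gau x - k‖ ^ (2 * h) : ℝ) : ℂ) :=
      Complex.continuous_ofReal.comp (Continuous.rpow_const (Pool.Agent.Run7.h145.JN.gau_cont.sub continuous_const).norm fun _ => Or.inr (by linarith))
    obtain ⟨-, h4⟩ := eval_int hG
    have h5 : ∫ x, ((‖gau x - k‖ ^ (2 * h) : ℝ) : ℂ) ∂pairLaw = ((c k h : ℝ) : ℂ) := by
      rw [integral_complex_ofReal]
      congr 1
      exact Pool.Agent.Run7.h145.JN.mom hh k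
    rw [integral_congr_ae e1, h4, h5, ← Complex.ofReal_mul] at h2
    have h6 : Tendsto (fun T : ℝ => (((2 * δ T) ^ (k ^ 2 + 2 * h) / T *
          ∫ t in Set.Icc 0 T, ‖riemannZeta (1 / 2 + δ T + t * Complex.I)‖ ^ (2 * k - 2 * h) *
            ‖deriv riemannZeta (1 / 2 + δ T + t * Complex.I)‖ ^ (2 * h) : ℝ) : ℂ)) atTop (𝓝 ((ak k * c k h : ℝ) : ℂ)) := by
      refine h2.congr' ?_
      filter_upwards [hpos] with T hT
      have e2 : ∀ t : ℝ, Pool.Agent.Run7.h145.JN.pq k h (zetaJet (δ T) 1 t) = (((2 * δ T) ^ (2 * h) *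
          (‖riemannZeta (1 / 2 + δ T + t * Complex.I)‖ ^ (2 * k - 2 * h) * ‖deriv riemannZeta (1 / 2 + δ T + t * Complex.I)‖ ^ (2 * h)) : ℝ) : ℂ) := by
        intro t
        unfold Pool.Agent.Run7.h145.JN.pq zetaJet
        congr 1
        have e3 : ‖(2 * (δ T : ℂ)) ^ ((1 : Fin 2) : ℕ) * iteratedDeriv ((1 : Fin 2) : ℕ) riemannZeta (1 / 2 + δ T + t * Complex.I)‖ =
            (2 * δ T) * ‖deriv riemannZeta (1 / 2 + δ T + t * Complex.I)‖ := by
          have : (2 * (δ T : ℂ)) = ((2 * δ T : ℝ) : ℂ) := by push_cast; ring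
          rw [this]
          show ‖((2 * δ T : ℝ) : ℂ) ^ 1 * iteratedDeriv 1 riemannZeta (1 / 2 + δ T + t * Complex.I)‖ = _
          rw [iteratedDeriv_one, pow_one, norm_mul, Complex.norm_real, Real.norm_of_nonneg (by positivity)]
        have e4 : ‖(2 * (δ T : ℂ)) ^ ((0 : Fin 2) : ℕ) * iteratedDeriv ((0 : Fin 2) : ℕ) riemannZeta (1 / 2 + δ T + t * Complex.I)‖ =
            ‖riemannZeta (1 / 2 + δ T + t * Complex.I)‖ := by
          show ‖(2 * (δ T : ℂ)) ^ 0 * iteratedDeriv 0 riemannZeta (1 / 2 + δ T + t * Complex.I)‖ = _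
          rw [iteratedDeriv_zero, pow_zero, one_mul]
        rw [e3, e4, Real.mul_rpow (by positivity) (norm_nonneg _), show 2 * (k - h) = 2 * k - 2 * h by ring]
        ring
      simp_rw [e2]
      rw [integral_complex_ofReal, integral_const_mul, ← Complex.ofReal_mul]
      congr 1
      rw [Real.rpow_add (by positivity)]
      ring
    have h7 := (Complex.continuous_re.tendsto _).comp h6
    simpa only [Function.comp_def, Complex.ofReal_re] using h7
  · exact Pool.Agent.Run7.h145.JN.momC_one k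

end Pool.Agent.Results.MP_f9aece_nt.JetsNearLine
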