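import Pool.Agent.Run7.h563.LS.ZJ

set_option autoImplicit false

/-!
# The zeros of zeta near the points which carry the moments

Unconditional, for every real order `β > 0` and Gaussian windows of width `D`, from `B / √(log T)` up to `T / (2 log T)`.
Let `J(t, r)` be the sum of `log (r / |ρ - 1/2 - it|)` over the zeros at distance at most `r`, on or off the line, with
multiplicity; it is the integral of `N(t, s) ds / s` over `0 < s < r`, `N(t, s)` the number of zeros at distance at most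
`s`. For `r = R / log T` its mean with respect to `dt` is `R / π`.

* `∫ exp (β J(t, R / log T)) |ζ(1/2 + it)| ^ β ≤ (1 + ε) exp ((1 + ε) β R / π) ∫ |ζ(1/2 + it)| ^ β`, uniformly in
  `R ≤ (log T) / 8`.
* The mean of `J(t, R / log T)` with respect to `|ζ(1/2 + it)| ^ β dt` is at most `R / π + ε`: near the points which carry
  a moment the zeros are, in Jensen's mean, at most as dense as on average, for every order `β` and at every scale `R`.
* The points with at least `m` zeros within `c / log T` carry at most `(1 + ε) (e ^ (1 + ε) c / (π m)) ^ (β m)` times the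
  moment.
-/

namespace Pool.Agent.Results.MP_f9aece_nt.ZerosUnderMoments

open MeasureTheory

noncomputable section

/-- the absolute value of zeta to the power `β`, with the Gaussian weight of centre `T` and width `D` -/
def density (β T D t : ℝ) : ℝ :=
  ‖riemannZeta (1 / 2 + t * Complex.I)‖ ^ β * Real.exp (-((t - T) / D) ^ 2)

/-- the part of the moment of order `β` which is carried by the set `S` -/
def moment (β T D : ℝ) (S : Set ℝ) : ℝ := ∫ t in S, density β T D t

/-- the number of zeros of zeta, with multiplicity, in the closed disc of centre `1/2 + it` and radius `r` -/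
def zerosNear (t r : ℝ) : ℕ :=
  ∑ᶠ (ρ : ℂ) (_ : ρ ∈ Metric.closedBall (1 / 2 + t * Complex.I : ℂ) r),
    analyticOrderNatAt riemannZeta ρ

/-- the sum of `log (r / |ρ - 1/2 - it|)` over the zeros in this disc, with multiplicity -/
def J (t r : ℝ) : ℝ :=
  ∑ᶠ (ρ : ℂ) (_ : ρ ∈ Metric.closedBall (1 / 2 + t * Complex.I : ℂ) r),
    (analyticOrderNatAt riemannZeta ρ : ℝ) * Real.log (r / ‖ρ - (1 / 2 + t * Complex.I)‖)

theorem sp_eq (t : ℝ) : (1 / 2 + t * Complex.I : ℂ) = Run7.h563.LS.sp t := by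
  unfold Run7.h563.LS.sp; push_cast; ring

theorem density_eq (β T D t : ℝ) :
    density β T D t = ‖riemannZeta (Run7.h563.LS.sp t)‖ ^ β * Q97.MM.wt T D t := by
  unfold density
  rw [sp_eq]
  rfl

theorem moment_univ (β T D : ℝ) : moment β T D Set.univ = Run7.h563.LS.JB β T D (1 / 2) := by
  unfold moment
  rw [setIntegral_univ, Run7.h563.LS.JB_eq_sp]
  simp only [density_eq]

theorem zerosNear_eq (t r : ℝ) : zerosNear t r = Run7.h563.LS.zeroCount (Run7.h563.LS.sp t) r := by
  unfold zerosNear Run7.h563.LS.zeroCount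
  rw [sp_eq]

theorem J_eq (t r : ℝ) : J t r = Run7.h563.LS.jsum (Run7.h563.LS.sp t) r := by
  unfold J Run7.h563.LS.jsum
  rw [sp_eq]

theorem window {B T D : ℝ} (hB : 1 ≤ B) (hT : 200 ≤ T) (hD : B / √(Real.log T) ≤ D) :
    0 < D ∧ B ≤ D ^ 2 * Real.log T := by
  have hlog := Run7.h563.LS.log_ge_one (T := T) (by linarith)
  have hL0 : 0 < Real.log T := by linarith
  have hsL : 0 < √(Real.log T) := Real.sqrt_pos.mpr hL0
  have hB' : B ≤ D * √(Real.log T) := (div_le_iff₀ hsL).mp hD
  have hD0 : 0 < D := lt_of_lt_of_le (by positivity) hD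
  refine ⟨hD0, ?_⟩
  have e : D ^ 2 * Real.log T = (D * √(Real.log T)) ^ 2 := by rw [mul_pow, Real.sq_sqrt hL0.le]
  rw [e]
  nlinarith

/-- **The zeros near the points which carry the moments.** -/
theorem result (β : ℝ) (hβ : 0 < β) (ε : ℝ) (hε : 0 < ε) :
    -- exponential moments, and clusters of zeros, uniformly in the scale
    (∃ B T₀ : ℝ, ∀ T D : ℝ, T₀ ≤ T → B / √(Real.log T) ≤ D → D ≤ T / (2 * Real.log T) →
      0 < moment β T D Set.univ ∧
      (∀ R : ℝ, 0 < R → R ≤ Real.log T / 8 →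
        Integrable (fun t => Real.exp (β * J t (R / Real.log T)) * density β T D t) ∧
        ∫ t : ℝ, Real.exp (β * J t (R / Real.log T)) * density β T D t ≤
          (1 + ε) * Real.exp ((1 + ε) * β * R / Real.pi) * moment β T D Set.univ) ∧
      ∀ (m : ℕ) (c : ℝ) (S : Set ℝ), MeasurableSet S → 0 < c → c ≤ Real.pi * m →
        Real.pi * m ≤ Real.log T / 8 → (∀ t ∈ S, m ≤ zerosNear t (c / Real.log T)) →
        moment β T D S ≤
          (1 + ε) * (Real.exp (1 + ε) * c / (Real.pi * m)) ^ (β * m) * moment β T D Set.univ) ∧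
    -- the mean numbers of zeros at a fixed scale
    ∀ R : ℝ, 0 < R → ∃ B T₀ : ℝ, ∀ T D : ℝ, T₀ ≤ T → B / √(Real.log T) ≤ D →
      D ≤ T / (2 * Real.log T) →
        Integrable (fun t => J t (R / Real.log T) * density β T D t) ∧
        ∫ t : ℝ, J t (R / Real.log T) * density β T D t ≤
          (R / Real.pi + ε) * moment β T D Set.univ ∧
        ∫ t : ℝ, (zerosNear t (R / Real.log T) : ℝ) * density β T D t ≤
          (Real.exp 1 * R / Real.pi + ε) * moment β T D Set.univ := by
  refine ⟨?_, fun R hR => ?_⟩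
  · obtain ⟨B₁, T₁, hB₁, hT₁, h₁⟩ := Run7.h563.LS.exp_int hβ hε
    obtain ⟨B₂, T₂, hB₂, hT₂, h₂⟩ := Run7.h563.LS.cluster_pi hβ hε
    refine ⟨max B₁ B₂, max T₁ T₂, fun T D hT hD hDT => ?_⟩
    have hTT1 : T₁ ≤ T := (le_max_left _ _).trans hT
    have hTT2 : T₂ ≤ T := (le_max_right _ _).trans hT
    obtain ⟨w1, w2⟩ := window (hB₁.trans (le_max_left B₁ B₂)) (hT₁.trans hTT1) hD
    obtain ⟨hJ, h3⟩ := h₁ T D hTT1 w1 ((le_max_left _ _).trans w2) hDT
    have h4 := h₂ T D hTT2 w1 ((le_max_right _ _).trans w2) hDT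
    rw [moment_univ]
    simp only [J_eq, density_eq, moment, zerosNear_eq]
    exact ⟨hJ, h3, h4⟩
  · obtain ⟨B₁, T₁, hB₁, hT₁, h₁⟩ := Run7.h563.LS.mean_jsum hβ hε hR
    obtain ⟨B₂, T₂, hB₂, hT₂, h₂⟩ := Run7.h563.LS.mean_count hβ hε hR
    refine ⟨max B₁ B₂, max T₁ T₂, fun T D hT hD hDT => ?_⟩
    have hTT1 : T₁ ≤ T := (le_max_left _ _).trans hT
    have hTT2 : T₂ ≤ T := (le_max_right _ _).trans hT
    obtain ⟨w1, w2⟩ := window (hB₁.trans (le_max_left B₁ B₂)) (hT₁.trans hTT1) hD
    obtain ⟨-, -, h3, h4⟩ := h₁ T D hTT1 w1 ((le_max_left _ _).trans w2) hDT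
    have h5 := h₂ T D hTT2 w1 ((le_max_right _ _).trans w2) hDT
    rw [moment_univ]
    simp only [J_eq, density_eq, zerosNear_eq]
    exact ⟨h3, h4, h5⟩

end

end Pool.Agent.Results.MP_f9aece_nt.ZerosUnderMoments
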